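import Pool.Agent.Helper77K9.Hgt.Main

/-!
# `p` divides the maximal height of the divisors of `x^(p q^b) - 1`

For all primes `p < q` and all `b ≥ 1`, `B(p q^b) = p · m`, where `m` is the maximal height of the
divisors of `(x^(p q^(b-1)) - 1)/(x^p - 1)`. In particular `p` divides `B(p q^b)`.

Proof. Every divisor of `x^(p q^b) - 1` is `R(x) F(x^q)` with `R` one of the sixteen divisors of
`x^(pq) - 1` and `F` a divisor of `(x^(p q^(b-1)) - 1)/(x^p - 1)`. The coefficients of `R` in each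
residue class mod `q` have absolute values of sum at most `p`, so the height is at most `p H(F)`,
and for `R = Φ_p Φ_q` it is `p H(F)`.
-/

set_option autoImplicit false

open Polynomial

namespace Pool.Agent.Results.MP_b384de_nt.DivisibleByP

/-- the height: the maximum of the absolute values of the coefficients -/
def height (f : ℤ[X]) : ℕ := f.support.sup fun i => (f.coeff i).natAbs

/-- the heights of the divisors of `E` in `ℤ[x]` -/
def heights (E : ℤ[X]) : Set ℕ := {h | ∃ f : ℤ[X], f ∣ E ∧ height f = h}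

/-- `B(n)`: the largest height of a divisor of `x^n - 1` in `ℤ[x]` -/
noncomputable def B (n : ℕ) : ℕ := sSup (heights (X ^ n - 1))

theorem result (p q b : ℕ) (hp : p.Prime) (hq : q.Prime) (hpq : p < q) (hb : 1 ≤ b) :
    IsGreatest (heights (X ^ (p * q ^ b) - 1)) (B (p * q ^ b)) ∧ p ∣ B (p * q ^ b) ∧
    ∃ (E : ℤ[X]) (m : ℕ), E * (X ^ p - 1) = X ^ (p * q ^ (b - 1)) - 1 ∧
      IsGreatest (heights E) m ∧ B (p * q ^ b) = p * m := by
  obtain ⟨c, rfl⟩ : ∃ c, b = c + 1 := ⟨b - 1, by omega⟩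
  have hh : ∀ f, height f = Helper77K9.Hgt.height f := fun _ => rfl
  have hbdd : BddAbove (heights (Helper77K9.Hgt.EE p q c)) := by
    refine ⟨p ^ c, ?_⟩
    rintro _ ⟨f, hf, rfl⟩
    exact Helper77K9.Hgt.height_EE_le p q hp hq hpq c f hf
  have hne : (heights (Helper77K9.Hgt.EE p q c)).Nonempty := ⟨_, 1, one_dvd _, rfl⟩
  set m := sSup (heights (Helper77K9.Hgt.EE p q c)) with hm
  have hmem : m ∈ heights (Helper77K9.Hgt.EE p q c) := Nat.sSup_mem hne hbdd
  have hmax : ∀ F, F ∣ Helper77K9.Hgt.EE p q c → height F ≤ m :=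
    fun F hF => le_csSup hbdd ⟨F, hF, rfl⟩
  have hup : ∀ f, f ∣ X ^ (p * q ^ (c + 1)) - 1 → height f ≤ p * m :=
    fun f hf => Helper77K9.Hgt.upper p q hp hq hpq c m hmax f hf
  have hgr : IsGreatest (heights (X ^ (p * q ^ (c + 1)) - 1)) (p * m) := by
    constructor
    · obtain ⟨F, hF, hFm⟩ := hmem
      obtain ⟨f, hf, hf'⟩ := Helper77K9.Hgt.lower p q hp hq hpq c F hF
      refine ⟨f, hf, le_antisymm (hup f hf) ?_⟩
      rw [← hFm]
      exact hf'
    · rintro _ ⟨f, hf, rfl⟩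
      exact hup f hf
  have hB : B (p * q ^ (c + 1)) = p * m := hgr.csSup_eq
  refine ⟨by rw [hB]; exact hgr, by rw [hB]; exact dvd_mul_right p m, Helper77K9.Hgt.EE p q c, m,
    ?_, ⟨hmem, ?_⟩, hB⟩
  · rw [Nat.add_sub_cancel]
    exact Helper77K9.Hgt.EE_mul p q hp hq hpq.ne c
  · rintro _ ⟨f, hf, rfl⟩
    exact hmax f hf

end Pool.Agent.Results.MP_b384de_nt.DivisibleByP
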